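import Pool.Agent.R52.OddRing
import Pool.Agent.R52.EarEx

/-!
# Multigraphs attaining Goldberg's odd-girth bound: the ring criterion and its exact range
-/

set_option autoImplicit false

namespace Pool.Agent.Results.MP_cf7ece_co.RingCriterion

open Pool.Agent.Results.MP_633d19_co.SmallDegree
open Pool.Agent.Results.MP_633d19_co.SmallDegree.MGraph
open Pool.Agent.R52.SteffenDefs
open Pool.Agent.R52.Bridge
open Pool.Agent.R52.BridgeEx

/-- Write `Δ - 2 = 2 p T + r` with `0 ≤ r < 2 p`, `Δ ≥ 3`. If `r < 2 T`, a graph with maximum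
degree `Δ` and odd girth `2 p + 1` attains Goldberg's bound if and only if it contains a ring
graph of order `2 p + 1` with at least `(Δ + T) p + 1` edges. If `r ≥ 2 T` there is a connected
graph attaining the bound without any ring graph of order `2 p + 1` of the same chromatic
index. -/
theorem result (p Δ : ℕ) (hp : 1 ≤ p) (hΔ : 3 ≤ Δ) :
    ((Δ - 2) % (2 * p) < 2 * ((Δ - 2) / (2 * p)) →
      ∀ {V E : Type} [Finite V] [Finite E] (G : MGraph V E), G.HasMaxDegree Δ →
        HasOddGirth G (2 * p + 1) →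
        (G.HasChromaticIndex (Δ + 1 + (Δ - 2) / (2 * p)) ↔
          ∃ (W F : Type) (R : MGraph W F), IsRing R (2 * p + 1) ∧ IsSub R G ∧
            (Δ + (Δ - 2) / (2 * p)) * p + 1 ≤ Nat.card F)) ∧
    (2 * ((Δ - 2) / (2 * p)) ≤ (Δ - 2) % (2 * p) →
      ∃ (V E : Type) (_ : Finite V) (_ : Finite E) (G : MGraph V E),
        Conn G ∧ G.HasMaxDegree Δ ∧ HasOddGirth G (2 * p + 1) ∧
        G.HasChromaticIndex (Δ + 1 + (Δ - 2) / (2 * p)) ∧
        ¬ ∃ (W F : Type) (R : MGraph W F), IsRing R (2 * p + 1) ∧ IsSub R G ∧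
          R.HasChromaticIndex (Δ + 1 + (Δ - 2) / (2 * p))) := by
  obtain ⟨T, hT⟩ : ∃ T, (Δ - 2) / (2 * p) = T := ⟨_, rfl⟩
  obtain ⟨r, hr⟩ : ∃ r, (Δ - 2) % (2 * p) = r := ⟨_, rfl⟩
  have hdm := Nat.div_add_mod (Δ - 2) (2 * p)
  have hrp : r < 2 * p := by
    rw [← hr]
    exact Nat.mod_lt _ (by omega)
  rw [hT, hr] at hdm ⊢
  have hΔT : Δ < 2 * p * (T + 1) + 2 := by
    have : 2 * p * (T + 1) = 2 * p * T + 2 * p := by ring
    omega
  constructor
  · intro hrT V E _ _ G hdeg hodd
    have hT1 : 1 ≤ T := by omega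
    have hcol : G.Colorable (Δ + 1 + T) := by
      apply goldberg (Δ := Δ) (p := p) (by omega) ?_ _ _ G rfl hdeg.1
        (fun l hl ho h => hodd.2 ⟨hl, ho, h⟩)
      have : Δ + 1 + T - Δ = T + 1 := by omega
      rw [this]
      exact hΔT
    constructor
    · intro hχ
      apply Pool.Agent.R52.OddRing.ring_exists G hT1 (Or.inl ?_) hdeg.1
        (fun l hl ho h => hodd.2 ⟨hl, ho, h⟩)
      · intro h
        have := hχ.2 h
        omega
      · have h1 : 2 * T * (p + 1) = 2 * p * T + 2 * T := by ring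
        omega
    · rintro ⟨W, F, R, hR1, hR2, hF⟩
      refine ⟨hcol, ?_⟩
      intro k hk
      by_contra hcon
      obtain ⟨-, v, -⟩ := hR1
      have hWf : Finite W := Finite.of_equiv _ v
      have hFf : Finite F := by
        obtain ⟨_, ψ, _, hψ, _⟩ := hR2
        exact Finite.of_injective ψ hψ
      have h1 : R.Colorable (Δ + T) := hR2.colorable (Colorable.mono hk (by omega))
      have h2 := R.overfull h1 (p := p) (by rw [← Nat.card_congr v, Nat.card_fin])
      omega
  · intro hrT
    show Bad p Δ T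
    rcases Nat.even_or_odd' Δ with ⟨m, rfl | rfl⟩
    · by_cases hr2 : r = 2 * T
      · have hT1 : 1 ≤ T := by
          by_contra hcon
          have h0 : T = 0 := by omega
          subst h0
          omega
        have hm : m = T * (p + 1) + 1 := by
          have h1 : 2 * (T * (p + 1)) = 2 * p * T + 2 * T := by ring
          omega
        exact Pool.Agent.R52.EarEx.bad_ear (by omega) hT1 hm hΔT
      · apply bad_even hp hΔT
        have h1 : 2 * (T * (p + 1)) = 2 * p * T + 2 * T := by ring
        have h2 : 2 * p * T = 2 * (p * T) := by ring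
        omega
    · apply bad_odd hp hΔT
      have h1 : 2 * (T * (p + 1)) = 2 * p * T + 2 * T := by ring
      have h2 : 2 * p * T = 2 * (p * T) := by ring
      omega

end Pool.Agent.Results.MP_cf7ece_co.RingCriterion
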